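import Pool.Agent.Helper78.JT.Goals3

/-!
# Packet JT-PJ3 (project JT of helper78, MP_34c247_lc)
-/

set_option autoImplicit false

namespace Pool.Agent.Helper5.JT

open Pool.Agent.Helper78.DT Pool.Agent.Helper78.JT

theorem cube_le (t : ℕ) (ht : 3 ≤ t) : (t + 1) ^ 3 ≤ 4 ^ t := by
  induction t, ht using Nat.le_induction with
  | base => norm_num
  | succ t ht ih =>
    calc (t + 1 + 1) ^ 3 ≤ 4 * (t + 1) ^ 3 := by nlinarith [Nat.zero_le (t ^ 3), Nat.zero_le (t ^ 2)]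
      _ ≤ 4 * 4 ^ t := Nat.mul_le_mul_left 4 ih
      _ = 4 ^ (t + 1) := by ring

/-- the comparison of the exponents -/
theorem pj3_exp (b B c e t : ℕ) (hB : B = (c + 8) * b) (ht : B + e + 12 ≤ t) :
    e + 9 + c * b * (t + 1) + (B * (t + 1) + 3) * t ≤ 2 ^ (2 * t) := by
  have h3 : c * b ≤ B := by
    rw [hB]
    exact Nat.mul_le_mul_right b (by omega)
  have h4 : (2 : ℕ) ^ (2 * t) = 4 ^ t := by
    rw [pow_mul]
    norm_num
  rw [h4]
  calc e + 9 + c * b * (t + 1) + (B * (t + 1) + 3) * t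
      ≤ e + 9 + B * (t + 1) + (B * (t + 1) + 3) * t := by
        have := Nat.mul_le_mul_right (t + 1) h3
        omega
    _ ≤ (B + e + 12) * (t + 1) ^ 2 := by nlinarith
    _ ≤ (t + 1) * (t + 1) ^ 2 := Nat.mul_le_mul_right _ (by omega)
    _ = (t + 1) ^ 3 := by ring
    _ ≤ 4 ^ t := cube_le t (by omega)

/-- the estimate in the natural numbers -/
theorem pj3_nat (c e b L P t n D k : ℕ) (hL : L < 2 ^ (b * (t + 1)))
    (hP : P ≤ 2 * L ^ (c + 8)) (ht : (c + 8) * b + e + 12 ≤ t) (hn : n ≤ D) (hD : 1 ≤ D)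
    (hk : D * 2 ^ (2 * t) ≤ k) :
    (e + 1) * (2 * (2 * (2 * P + 1) ^ t + 1) ^ n) * (64 * L ^ c) ≤ 2 ^ k := by
  obtain ⟨B, hB⟩ : ∃ B, B = (c + 8) * b := ⟨_, rfl⟩
  rw [← hB] at ht
  have h1 : L ^ (c + 8) ≤ 2 ^ (B * (t + 1)) := by
    calc L ^ (c + 8) ≤ (2 ^ (b * (t + 1))) ^ (c + 8) := Nat.pow_le_pow_left hL.le _
      _ = 2 ^ (B * (t + 1)) := by
        rw [← pow_mul, hB]
        congr 1
        ring
  have h1' : L ^ c ≤ 2 ^ (c * b * (t + 1)) := by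
    calc L ^ c ≤ (2 ^ (b * (t + 1))) ^ c := Nat.pow_le_pow_left hL.le _
      _ = 2 ^ (c * b * (t + 1)) := by
        rw [← pow_mul]
        congr 1
        ring
  have h2 : 2 * P + 1 ≤ 2 ^ (B * (t + 1) + 3) := by
    have h3 : 1 ≤ 2 ^ (B * (t + 1)) := Nat.one_le_two_pow
    rw [pow_add]
    omega
  have h3 : 2 * (2 * P + 1) ^ t + 1 ≤ 2 ^ ((B * (t + 1) + 3) * t + 2) := by
    have h4 : (2 * P + 1) ^ t ≤ 2 ^ ((B * (t + 1) + 3) * t) := by
      rw [pow_mul]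
      exact Nat.pow_le_pow_left h2 t
    have h5 : 1 ≤ 2 ^ ((B * (t + 1) + 3) * t) := Nat.one_le_two_pow
    rw [pow_add]
    omega
  have h4 : (2 * (2 * P + 1) ^ t + 1) ^ n ≤ 2 ^ (((B * (t + 1) + 3) * t + 2) * D) := by
    calc (2 * (2 * P + 1) ^ t + 1) ^ n ≤ (2 * (2 * P + 1) ^ t + 1) ^ D :=
          Nat.pow_le_pow_right (by omega) hn
      _ ≤ (2 ^ ((B * (t + 1) + 3) * t + 2)) ^ D := Nat.pow_le_pow_left h3 D
      _ = 2 ^ (((B * (t + 1) + 3) * t + 2) * D) := by rw [← pow_mul]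
  have he : e + 1 ≤ 2 ^ e := Nat.lt_two_pow_self
  have h5 : (e + 1) * (2 * (2 * (2 * P + 1) ^ t + 1) ^ n) * (64 * L ^ c) ≤
      2 ^ (e + (1 + ((B * (t + 1) + 3) * t + 2) * D) + (6 + c * b * (t + 1))) := by
    rw [pow_add, pow_add, pow_add, pow_add 2 6]
    exact Nat.mul_le_mul (Nat.mul_le_mul he (Nat.mul_le_mul (by norm_num) h4))
      (Nat.mul_le_mul (by norm_num) h1')
  have h6 := pj3_exp b B c e t hB ht
  have h7 : e + (1 + ((B * (t + 1) + 3) * t + 2) * D) + (6 + c * b * (t + 1)) ≤ k := by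
    refine le_trans ?_ hk
    calc e + (1 + ((B * (t + 1) + 3) * t + 2) * D) + (6 + c * b * (t + 1))
        = ((B * (t + 1) + 3) * t + 2) * D + (e + 7 + c * b * (t + 1)) * 1 := by ring
      _ ≤ ((B * (t + 1) + 3) * t + 2) * D + (e + 7 + c * b * (t + 1)) * D :=
          Nat.add_le_add_left (Nat.mul_le_mul_left _ hD) _
      _ = D * (e + 9 + c * b * (t + 1) + (B * (t + 1) + 3) * t) := by ring
      _ ≤ D * 2 ^ (2 * t) := Nat.mul_le_mul_left D h6
  exact le_trans h5 (Nat.pow_le_pow_right (by norm_num) h7)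

theorem pj3 (hT : TljStmt) : Pj3Stmt := by
  intro c a e
  obtain ⟨hT1, hT2, hT3⟩ := hT a e
  obtain ⟨L0, hL0⟩ := hT2 ((c + 8) * bb a e + e + 12)
  obtain ⟨L1, hL1⟩ := hT3
  refine ⟨max (max L0 L1) 1, fun L hL r hr => ?_⟩
  have hLone : 1 ≤ L := le_trans (le_max_right _ _) hL
  have ht := hL0 L (le_trans (le_trans (le_max_left _ _) (le_max_left _ _)) hL)
  have hk := (hL1 L (le_trans (le_trans (le_max_right _ _) (le_max_left _ _)) hL)).1
  obtain ⟨_, hLt, _, hr'⟩ := hT1 L hLone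
  have hrD := (hr' r hr).2
  have hP : Pj c L ≤ 2 * L ^ (c + 8) := (npr (L ^ (c + 8)) (by positivity)).2.2
  have hn : sj a e L * r ≤ Dj a e L := by
    refine le_trans ?_ hrD
    calc sj a e L * r = r * (1 * sj a e L) := by ring
      _ ≤ r * (tj a e L * sj a e L) :=
        Nat.mul_le_mul_left r (Nat.mul_le_mul_right _ (by omega))
  have hD : 1 ≤ Dj a e L := Nat.one_le_two_pow
  have key := pj3_nat c e (bb a e) L (Pj c L) (tj a e L) (sj a e L * r) (Dj a e L)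
    (Uj a e L ^ (e + 1)) hLt hP ht hn hD hk
  have key' : ((e : ℝ) + 1) * (2 * (2 * (2 * (Pj c L : ℝ) + 1) ^ tj a e L + 1) ^ (sj a e L * r)) *
      (64 * (L : ℝ) ^ c) ≤ 2 ^ (Uj a e L ^ (e + 1)) := by exact_mod_cast key
  have hLr : (0 : ℝ) < (L : ℝ) := by exact_mod_cast hLone
  unfold εj
  rw [← mul_assoc, ← div_eq_mul_one_div, div_le_div_iff₀ (by positivity) (by positivity), one_mul]
  exact key'

end Pool.Agent.Helper5.JT
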